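import Pool.Agent.Y482.Ph.Defs
import Pool.Agent.Y590.CB.Farx
import Pool.Agent.Y590.CB.KF
import Pool.Agent.Y288.CB.TB0
import Pool.Agent.Y105.CB.Rho
import Pool.Agent.Y833.CB.Mn2

/-!
# PH-NR: reduction of the exact sums to the neighbourhood of `χ = 0`
-/

set_option autoImplicit false

namespace Pool.Agent.Y833.PH

open Finset Filter Topology Metric
open Pool.Agent.W711.HT Pool.Agent.Y472 Pool.Agent.Y833.CB
open Pool.Agent.Y482.Ph (SB SA nearS S_NR S_NRA)
open scoped Real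

lemma hbet : 0 < bet := by
  obtain ⟨ρs, hρ0, hρ1, R1, R2, -⟩ := Pool.Agent.Y105.CB.rho
  have hπ3 := Real.pi_gt_three
  have hc1 := Pool.Agent.Y590.CB.c1_pos
  have h1 := R2 0 ρs le_rfl zero_le_one (by rw [abs_of_pos hρ0]; linarith)
  have h2 : rh 0 ρs = 0 := by
    unfold rh
    exact intervalIntegral.integral_same
  rw [h2, abs_of_pos hρ0, min_self] at h1
  have h3 := le_max_right (bb 0 0) 0
  have h4 : 0 < c1 / 2 * ρs ^ 2 := by positivity
  linarith

lemma far : ∃ ρs : ℝ, 0 < ρs ∧ ρs ≤ 1 ∧ ∀ ls : List (ℤ × ℤ), ls ≠ [] → FX ρs ls :=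
  Pool.Agent.Y590.CB.farx2 Pool.Agent.Y288.CB.tb0 Pool.Agent.Y105.CB.rho

/-- polynomial factors -/
lemma poly_abs {A κ : ℝ} (j : ℕ) (hA : 0 < A) (hκ : 0 < κ) :
    ∀ᶠ N : ℕ in atTop, A * (N : ℝ) ^ j ≤ Real.exp (N * κ) := by
  have h1 := Real.tendsto_pow_mul_exp_neg_atTop_nhds_zero j
  have h2 : Tendsto (fun N : ℕ => (κ * (N : ℝ)) ^ j * Real.exp (-(κ * N))) atTop (𝓝 0) :=
    h1.comp ((tendsto_natCast_atTop_atTop (R := ℝ)).const_mul_atTop hκ)
  have h3 := h2.eventually_lt_const (u := κ ^ j / A) (by positivity)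
  filter_upwards [h3] with N h3
  rw [Real.exp_neg, mul_pow] at h3
  have hE := Real.exp_pos (κ * N)
  rw [mul_comm (N : ℝ) κ]
  rw [← div_eq_mul_inv, div_lt_div_iff₀ hE hA] at h3
  have hk : 0 < κ ^ j := by positivity
  have h4 : κ ^ j * ((N : ℝ) ^ j * A) ≤ κ ^ j * Real.exp (κ * N) := by
    calc κ ^ j * ((N : ℝ) ^ j * A) = κ ^ j * (N : ℝ) ^ j * A := by ring
      _ ≤ _ := h3.le
  have := le_of_mul_le_mul_left h4 hk
  linarith

theorem nr : S_NR := by
  intro k R hk hR hR1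
  obtain ⟨ρs, hρs, -, HF⟩ := far
  have hc1 : 0 < c1 := by have := Real.pi_pos; unfold c1; positivity
  have hb := hbet
  have hk0 : (0 : ℝ) < k := by exact_mod_cast hk
  set μ : ℝ := min (k * c1 * min (R / 8) ρs ^ 2) (bet / 2) with hμ
  have hμ0 : 0 < μ := by positivity
  refine ⟨μ / 2, by positivity, fun ls m hlen => ?_⟩
  have hls0 : ls ≠ [] := by
    rintro rfl
    simp at hlen
    omega
  obtain ⟨A, hA, herr⟩ := err_bd hb hρs hls0 (HF ls hls0) Pool.Agent.Y590.CB.kf hR hR1 m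
  filter_upwards [herr, poly_abs 2 hA (half_pos hμ0)] with N h1 h2
  rw [hlen] at h1
  refine h1.trans ?_
  rw [← hμ]
  calc A * N ^ 2 * Real.exp (N * (4 * k * bet - μ))
      ≤ Real.exp (N * (μ / 2)) * Real.exp (N * (4 * k * bet - μ)) := by gcongr
    _ = _ := by rw [← Real.exp_add]; congr 1; ring

/-- the terms of the sum -/
noncomputable def hA (N : ℕ) (ls : List (ℤ × ℤ)) (m : ℤ) (q : ℤ) : ℂ :=
  Ea (2 * m) N (2 * π * q / N) * Tf N ls (2 * π * q / N)

lemma Ea_add (N : ℕ) (m : ℤ) (χ : ℂ) :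
    Ea (2 * m) N (χ + 2 * π) = Ea (2 * m) N χ * Complex.exp (2 * Complex.I * m * N * χ) := by
  have hπ : (π : ℂ) ≠ 0 := by exact_mod_cast Real.pi_ne_zero
  unfold Ea
  rw [← Complex.exp_add]
  have h1 : Complex.I * ((2 * m : ℤ) : ℂ) * N * (χ + 2 * π) ^ 2 / (4 * π) =
      (Complex.I * ((2 * m : ℤ) : ℂ) * N * χ ^ 2 / (4 * π) + 2 * Complex.I * m * N * χ) +
        2 * π * Complex.I * ((m * N : ℤ) : ℂ) := by
    push_cast
    field_simp
    ring
  rw [h1, Complex.exp_add, exp_int, mul_one]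

lemma SA_eq (N : ℕ) (hN : 0 < N) (ls : List (ℤ × ℤ)) (m : ℤ) :
    SA N ls m = ∑ p ∈ range N, hA N ls m (rp N p) := by
  have hN' : (N : ℂ) ≠ 0 := by exact_mod_cast hN.ne'
  unfold SA
  refine sum_congr rfl fun p _ => ?_
  unfold hA rp
  split_ifs with h
  · rw [Int.cast_natCast]
  · have h2 : (2 * π * (((p : ℤ) - N : ℤ) : ℂ) / N + 2 * π : ℂ) = 2 * π * p / N := by
      push_cast
      field_simp
      ring
    have he : Complex.exp (2 * Complex.I * m * N * (2 * π * (((p : ℤ) - N : ℤ) : ℂ) / N)) = 1 := by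
      rw [show (2 * Complex.I * m * N * (2 * π * (((p : ℤ) - N : ℤ) : ℂ) / N) : ℂ) =
        2 * π * Complex.I * ((2 * m * (p - N) : ℤ) : ℂ) by push_cast; field_simp]
      exact exp_int _
    rw [← h2, Ea_add, Tf_congr N ls (Complex.cos_add_two_pi _), he, mul_one]

lemma Ea_real (N : ℕ) (m : ℤ) (x : ℝ) : ‖Ea (2 * m) N (x : ℂ)‖ = 1 := by
  unfold Ea
  rw [Complex.norm_exp]
  have : (Complex.I * ((2 * m : ℤ) : ℂ) * N * (x : ℂ) ^ 2 / (4 * π)) =
      ((2 * m * N * x ^ 2 / (4 * π) : ℝ) : ℂ) * Complex.I := by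
    push_cast; ring
  rw [this, Complex.re_ofReal_mul, Complex.I_re, mul_zero, Real.exp_zero]

theorem nra : S_NRA := by
  intro k R hk hR hR1
  obtain ⟨ρs, hρs, -, HF⟩ := far
  have hπ := Real.pi_gt_three
  have hc1 : 0 < c1 := by unfold c1; positivity
  have hb := hbet
  have hk0 : (0 : ℝ) < k := by exact_mod_cast hk
  set κ : ℝ := k * c1 * min (R / 8) ρs ^ 2 with hκ
  have hκ0 : 0 < κ := by positivity
  set μ : ℝ := min κ (bet / 2) with hμ
  have hμ0 : 0 < μ := by positivity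
  refine ⟨μ / 2, by positivity, fun ls m hlen => ?_⟩
  have hls0 : ls ≠ [] := by
    rintro rfl
    simp at hlen
    omega
  obtain ⟨τ, hτ, F1, F2, -⟩ := HF ls hls0
  obtain ⟨τ', hτ', F2⟩ := F2 κ hκ0
  filter_upwards [F1, F2, eventually_ge_atTop 2, poly_abs 1 (A := 2) two_pos (half_pos hμ0)] with
    N F1 F2 hN2 hpoly
  have hN0 : 0 < N := by omega
  have hN' : (0 : ℝ) < N := by exact_mod_cast hN0
  set P : ℕ := ⌊R / 4 * N / (2 * π)⌋₊ with hP
  have hPle : (P : ℝ) ≤ R / 4 * N / (2 * π) := Nat.floor_le (by positivity)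
  have hPgt : R / 4 * N / (2 * π) < P + 1 := Nat.lt_floor_add_one _
  have hP2 : 2 * P < N := by
    have h1 : (2 * P : ℝ) < N := by
      have h2 : R / 4 * N / (2 * π) ≤ N / 24 := by
        rw [div_le_div_iff₀ (by positivity) (by norm_num)]
        nlinarith
      linarith
    exact_mod_cast h1
  rw [hlen] at F1 F2
  set K : ℝ := 4 * k * bet with hK
  set E3 : ℝ := Real.exp (N * (K - μ)) with hE3
  have hE13 : Real.exp (N * ((4 * k - 1 / 2) * bet)) ≤ E3 := by
    refine Real.exp_le_exp.2 (mul_le_mul_of_nonneg_left ?_ hN'.le)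
    have : μ ≤ bet / 2 := min_le_right _ _
    rw [hK]; linarith
  have hxr : ∀ q : ℤ, (2 * π * (q : ℂ) / N : ℂ) = ((2 * π * (q : ℝ) / N : ℝ) : ℂ) := by
    intro q; push_cast; rfl
  rw [SA_eq N hN0, ← sum_filter_add_sum_filter_not (range N) (fun p => |rp N p| ≤ (P : ℤ)),
    sum_near N P hP2]
  unfold nearS
  rw [← hP]
  have hdec : (∑ q ∈ Icc (-(P : ℤ)) P, hA N ls m q + ∑ p ∈ (range N).filter (fun p => ¬ |rp N p| ≤ (P : ℤ)),
      hA N ls m (rp N p)) - ((N : ℂ) / (2 * π)) ^ (2 * k) *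
        ∑ p ∈ Icc (-(P : ℤ)) P, Ea (2 * m) N (2 * π * p / N) * XN ls N (2 * π * p / N) =
      ∑ p ∈ (range N).filter (fun p => ¬ |rp N p| ≤ (P : ℤ)), hA N ls m (rp N p) +
      ∑ q ∈ Icc (-(P : ℤ)) P, (hA N ls m q - ((N : ℂ) / (2 * π)) ^ (2 * k) *
        (Ea (2 * m) N (2 * π * q / N) * XN ls N (2 * π * q / N))) := by
    rw [sum_sub_distrib, mul_sum]
    ring
  rw [hdec]
  -- far part
  have hs2 : ‖∑ p ∈ (range N).filter (fun p => ¬ |rp N p| ≤ (P : ℤ)), hA N ls m (rp N p)‖ ≤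
      N * E3 := by
    have hg : ∀ p ∈ (range N).filter (fun p => ¬ |rp N p| ≤ (P : ℤ)), ‖hA N ls m (rp N p)‖ ≤ E3 := by
      intro p hp
      rw [mem_filter, mem_range] at hp
      obtain ⟨hp1, hp2⟩ := hp
      have hq1 : (P : ℤ) + 1 ≤ |rp N p| := by omega
      have hq2 : 2 * |rp N p| ≤ N := by
        unfold rp
        split_ifs with h
        · rw [abs_of_nonneg (by omega)]; omega
        · rw [abs_of_neg (by omega)]; omega
      have hqr1 : ((P : ℝ) + 1) ≤ |(rp N p : ℝ)| := by exact_mod_cast hq1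
      have hqr2 : 2 * |(rp N p : ℝ)| ≤ N := by exact_mod_cast hq2
      unfold hA
      rw [hxr]
      set x : ℝ := 2 * π * (rp N p : ℝ) / N with hx
      have hxa : |x| = 2 * π * |(rp N p : ℝ)| / N := by
        rw [hx, abs_div, abs_mul, abs_of_pos (by positivity : (0 : ℝ) < 2 * π), abs_of_pos hN']
      have hx1 : |x| ≤ π := by
        rw [hxa, div_le_iff₀ hN']
        nlinarith
      have hx2 : R / 4 ≤ |x| := by
        rw [hxa, le_div_iff₀ hN']
        have h6 : R / 4 * N / (2 * π) ≤ |(rp N p : ℝ)| := by linarith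
        rw [div_le_iff₀ (by positivity)] at h6
        linarith
      rw [norm_mul, Ea_real, one_mul]
      have h3 := F2 (x : ℂ) (by rw [Complex.ofReal_re]; exact hx1)
        (by rw [Complex.ofReal_im, abs_zero]; exact hτ'.le)
      refine h3.trans (Real.exp_le_exp.2 (mul_le_mul_of_nonneg_left ?_ hN'.le))
      rw [Complex.ofReal_re]
      have h4 : min (R / 8) ρs ^ 2 ≤ min |x| ρs ^ 2 := by
        have h5 : R / 8 ≤ |x| := by linarith
        have : 0 ≤ min (R / 8) ρs := by positivity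
        gcongr
      have h5 : κ ≤ k * c1 * min |x| ρs ^ 2 := by
        rw [hκ]; gcongr
      have h6 : μ ≤ κ := min_le_left _ _
      linarith
    refine (norm_sum_le_of_le _ hg).trans ?_
    rw [sum_const, nsmul_eq_mul]
    have hcard : (((range N).filter (fun p => ¬ |rp N p| ≤ (P : ℤ))).card : ℝ) ≤ N := by
      have := card_filter_le (range N) (fun p => ¬ |rp N p| ≤ (P : ℤ))
      rw [card_range] at this
      exact_mod_cast this
    have : 0 ≤ E3 := (Real.exp_pos _).le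
    gcongr
  -- near part
  have hs3 : ‖∑ q ∈ Icc (-(P : ℤ)) P, (hA N ls m q - ((N : ℂ) / (2 * π)) ^ (2 * k) *
        (Ea (2 * m) N (2 * π * q / N) * XN ls N (2 * π * q / N)))‖ ≤ N * E3 := by
    have hg : ∀ q ∈ Icc (-(P : ℤ)) P, ‖hA N ls m q - ((N : ℂ) / (2 * π)) ^ (2 * k) *
        (Ea (2 * m) N (2 * π * q / N) * XN ls N (2 * π * q / N))‖ ≤ E3 := by
      intro q hq
      rw [mem_Icc, ← abs_le] at hq
      have hqr : |(q : ℝ)| ≤ P := by exact_mod_cast hq
      unfold hA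
      rw [hxr]
      set x : ℝ := 2 * π * (q : ℝ) / N with hx
      have hxa : |x| = 2 * π * |(q : ℝ)| / N := by
        rw [hx, abs_div, abs_mul, abs_of_pos (by positivity : (0 : ℝ) < 2 * π), abs_of_pos hN']
      have hx1 : |x| ≤ R / 4 := by
        rw [hxa, div_le_iff₀ hN']
        have h6 : |(q : ℝ)| ≤ R / 4 * N / (2 * π) := by linarith
        rw [le_div_iff₀ (by positivity)] at h6
        linarith
      have e1 : Ea (2 * m) N (x : ℂ) * Tf N ls (x : ℂ) - ((N : ℂ) / (2 * π)) ^ (2 * k) *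
          (Ea (2 * m) N (x : ℂ) * XN ls N (x : ℂ)) =
          Ea (2 * m) N (x : ℂ) * (Tf N ls (x : ℂ) - Tm N ls (x : ℂ)) := by
        rw [Pool.Agent.Y590.CB.kf N ls _ hN2 hls0, hlen]
        ring
      rw [e1, norm_mul, Ea_real, one_mul]
      exact (F1 (x : ℂ) (by rw [Complex.ofReal_re]; linarith)
        (by rw [Complex.ofReal_im, abs_zero]; exact hτ.le)).trans hE13
    refine (norm_sum_le_of_le _ hg).trans ?_
    rw [sum_const, nsmul_eq_mul]
    have hcard : ((Icc (-(P : ℤ)) P).card : ℝ) ≤ N := by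
      rw [Int.card_Icc]
      have : ((P : ℤ) + 1 - -(P : ℤ)).toNat ≤ N := by omega
      exact_mod_cast this
    have : 0 ≤ E3 := (Real.exp_pos _).le
    gcongr
  refine (norm_add_le _ _).trans ((add_le_add hs2 hs3).trans ?_)
  rw [pow_one] at hpoly
  calc (N : ℝ) * E3 + N * E3 = 2 * N * E3 := by ring
    _ ≤ Real.exp (N * (μ / 2)) * Real.exp (N * (K - μ)) := by rw [hE3]; gcongr
    _ = _ := by rw [← Real.exp_add]; congr 1; ring

end Pool.Agent.Y833.PH
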